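import Pool.Agent.helper21.KBR3.Chart

/-!
# KBR3, module A2: pointwise linear algebra of the boundary isometry `F`
-/

noncomputable section

namespace KBR

open Set MeasureTheory Filter Topology
open scoped ContDiff RealInnerProductSpace

variable {n m : ℕ}

namespace A2

lemma norm_bM {a : E n} (ha : a ∈ bM n) : ‖a‖ = 1 := by simpa [bM] using ha

lemma ne_zero_bM {a : E n} (ha : a ∈ bM n) : a ≠ 0 := by
  intro h
  have := norm_bM ha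
  rw [h, norm_zero] at this
  exact zero_ne_one this

variable {G : E n → E n →L[ℝ] E n} {a : E n}

lemma kap_pos (hG : IsMetric G) (ha : a ∈ bM n) : 0 < kap G a :=
  Real.sqrt_pos.mpr (hG.inv_pos (bM_sub_M ha) a (ne_zero_bM ha))

lemma kap_sq (hG : IsMetric G) (ha : a ∈ bM n) : kap G a * kap G a = ⟪(G a).inverse a, a⟫ :=
  Real.mul_self_sqrt (hG.inv_nonneg (bM_sub_M ha) a)

/-- `G ν = κ⁻¹ a` -/
lemma G_nu (hG : IsMetric G) (ha : a ∈ bM n) (w : E n) :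
    ⟪G a (nu G a), w⟫ = (kap G a)⁻¹ * ⟪a, w⟫ := by
  unfold nu
  rw [map_smul, hG.apply_inv (bM_sub_M ha), inner_smul_left]
  simp

lemma inner_nu (hG : IsMetric G) (ha : a ∈ bM n) : ⟪a, nu G a⟫ = kap G a := by
  have h0 := (kap_pos hG ha).ne'
  unfold nu
  rw [inner_smul_right, real_inner_comm, ← kap_sq hG ha]
  field_simp

lemma G_nu_nu (hG : IsMetric G) (ha : a ∈ bM n) : ⟪G a (nu G a), nu G a⟫ = 1 := by
  rw [G_nu hG ha, inner_nu hG ha, inv_mul_cancel₀ (kap_pos hG ha).ne']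

/-- normal coordinate -/
def be (G : E n → E n →L[ℝ] E n) (a v : E n) : ℝ := (kap G a)⁻¹ * ⟪a, v⟫

/-- tangential part -/
def tg (G : E n → E n →L[ℝ] E n) (a v : E n) : E n := v - be G a v • nu G a

lemma inner_tg (hG : IsMetric G) (ha : a ∈ bM n) (v : E n) : ⟪a, tg G a v⟫ = 0 := by
  unfold tg be
  have h0 := (kap_pos hG ha).ne'
  rw [inner_sub_right, inner_smul_right, inner_nu hG ha]
  field_simp
  ring

lemma decomp (G : E n → E n →L[ℝ] E n) (a v : E n) : v = tg G a v + be G a v • nu G a := by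
  unfold tg; abel

/-- the metric in the decomposition -/
lemma metric_dec (hG : IsMetric G) (ha : a ∈ bM n) {u v : E n} (hu : ⟪a, u⟫ = 0)
    (hv : ⟪a, v⟫ = 0) (β γ : ℝ) :
    ⟪G a (u + β • nu G a), v + γ • nu G a⟫ = ⟪G a u, v⟫ + β * γ := by
  have h1 : ⟪G a u, nu G a⟫ = 0 := by
    rw [hG.symm a (bM_sub_M ha), G_nu hG ha, hu, mul_zero]
  have h2 : ⟪G a (nu G a), v⟫ = 0 := by rw [G_nu hG ha, hv, mul_zero]
  rw [map_add, map_smul, inner_add_left, inner_add_right, inner_add_right, inner_smul_left,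
    inner_smul_left, inner_smul_right, inner_smul_right, h1, h2, G_nu_nu hG ha]
  simp

lemma metric_split (hG : IsMetric G) (ha : a ∈ bM n) (u v : E n) :
    ⟪G a u, v⟫ = ⟪G a (tg G a u), tg G a v⟫ + be G a u * be G a v := by
  conv_lhs => rw [decomp G a u, decomp G a v]
  exact metric_dec hG ha (inner_tg hG ha u) (inner_tg hG ha v) _ _

lemma Fb_dec (G₁ G₂ : E n → E n →L[ℝ] E n) (a v : E n) :
    Fb G₁ G₂ a v = tg G₁ a v + be G₁ a v • nu G₂ a := by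
  rw [Fb_apply]
  unfold tg be
  rw [smul_sub]
  abel

end A2

open A2

/-- MODULE A2a: tangential metrics agree. -/
theorem tan_eq {G₁ G₂ : E n → E n →L[ℝ] E n} (h₁ : IsMetric G₁) (h₂ : IsMetric G₂)
    (hd : BdEq G₁ G₂) {a : E n} (ha : a ∈ bM n) {u v : E n} (hu : ⟪a, u⟫ = 0) (hv : ⟪a, v⟫ = 0) :
    ⟪G₁ a u, v⟫ = ⟪G₂ a u, v⟫ := by
  have hd1 : ∀ a ∈ bM n, ∀ b ∈ bM n, rdist G₁ a b ≤ rdist G₂ a b := fun a ha b hb =>
    (hd a ha b hb).le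
  have hd2 : ∀ a ∈ bM n, ∀ ε > 0, ∃ δ > 0, ∀ b ∈ bM n, ‖b - a‖ < δ →
      rdist G₂ a b ≤ rdist G₁ a b + ε * ‖b - a‖ := by
    intro a ha ε hε
    refine ⟨1, one_pos, fun b hb _ => ?_⟩
    rw [hd a ha b hb]
    have : 0 ≤ ε * ‖b - a‖ := mul_nonneg hε.le (norm_nonneg _)
    linarith
  have key : ∀ w, ⟪a, w⟫ = 0 → ⟪G₂ a w, w⟫ = ⟪G₁ a w, w⟫ := fun w hw =>
    BQ.sq_eq G₁ G₂ h₁ h₂ hd1 hd2 ha hw
  have huv : ⟪a, u + v⟫ = 0 := by rw [inner_add_right, hu, hv, add_zero]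
  have k1 := key (u + v) huv
  have k2 := key u hu
  have k3 := key v hv
  simp only [map_add, inner_add_left, inner_add_right] at k1
  have s1 := h₁.symm a (bM_sub_M ha) u v
  have s2 := h₂.symm a (bM_sub_M ha) u v
  linarith

/-- MODULE A2b: `F` is isometric. -/
theorem Fb_isom {G₁ G₂ : E n → E n →L[ℝ] E n} (h₁ : IsMetric G₁) (h₂ : IsMetric G₂)
    {a : E n} (ha : a ∈ bM n)
    (ht : ∀ u v, ⟪a, u⟫ = 0 → ⟪a, v⟫ = 0 → ⟪G₁ a u, v⟫ = ⟪G₂ a u, v⟫) (u v : E n) :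
    ⟪G₂ a (Fb G₁ G₂ a u), Fb G₁ G₂ a v⟫ = ⟪G₁ a u, v⟫ := by
  rw [Fb_dec, Fb_dec, metric_dec h₂ ha (inner_tg h₁ ha u) (inner_tg h₁ ha v),
    metric_split h₁ ha u v, ht _ _ (inner_tg h₁ ha u) (inner_tg h₁ ha v)]

/-- MODULE A2c: `F` is determined. -/
theorem Fb_det {G₁ G₂ : E n → E n →L[ℝ] E n} (h₁ : IsMetric G₁) (h₂ : IsMetric G₂)
    {a : E n} (ha : a ∈ bM n)
    (ht : ∀ u v, ⟪a, u⟫ = 0 → ⟪a, v⟫ = 0 → ⟪G₁ a u, v⟫ = ⟪G₂ a u, v⟫) {y₁ y₂ : E n}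
    (hw : ∀ w, ⟪a, w⟫ = 0 → ⟪G₁ a y₁, w⟫ = ⟪G₂ a y₂, w⟫)
    (hn : ⟪G₁ a y₁, y₁⟫ = ⟪G₂ a y₂, y₂⟫) (p₁ : 0 ≤ ⟪a, y₁⟫) (p₂ : 0 ≤ ⟪a, y₂⟫) :
    Fb G₁ G₂ a y₁ = y₂ := by
  have t1 := inner_tg h₁ ha y₁
  have t2 := inner_tg h₂ ha y₂
  have e1 : ∀ w, ⟪a, w⟫ = 0 → ⟪G₁ a y₁, w⟫ = ⟪G₁ a (tg G₁ a y₁), w⟫ := by
    intro w h
    have := metric_dec h₁ ha t1 h (be G₁ a y₁) 0
    rw [← decomp, zero_smul, add_zero, mul_zero, add_zero] at this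
    exact this
  have e2 : ∀ w, ⟪a, w⟫ = 0 → ⟪G₂ a y₂, w⟫ = ⟪G₂ a (tg G₂ a y₂), w⟫ := by
    intro w h
    have := metric_dec h₂ ha t2 h (be G₂ a y₂) 0
    rw [← decomp, zero_smul, add_zero, mul_zero, add_zero] at this
    exact this
  have e3 : ∀ w, ⟪a, w⟫ = 0 → ⟪G₂ a (tg G₁ a y₁ - tg G₂ a y₂), w⟫ = 0 := by
    intro w h
    rw [map_sub, inner_sub_left, ← ht _ _ t1 h, ← e1 w h, ← e2 w h, hw w h, sub_self]
  have t3 : ⟪a, tg G₁ a y₁ - tg G₂ a y₂⟫ = 0 := by rw [inner_sub_right, t1, t2, sub_zero]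
  have e4 : tg G₁ a y₁ = tg G₂ a y₂ := by
    by_contra hne
    exact absurd (e3 _ t3) (h₂.pos a (bM_sub_M ha) _ (sub_ne_zero.mpr hne)).ne'
  have e5 : be G₁ a y₁ = be G₂ a y₂ := by
    have s1 := metric_split h₁ ha y₁ y₁
    have s2 := metric_split h₂ ha y₂ y₂
    rw [← e4, ← ht _ _ t1 t1] at s2
    have s3 : be G₁ a y₁ * be G₁ a y₁ = be G₂ a y₂ * be G₂ a y₂ := by linarith
    have b1 : 0 ≤ be G₁ a y₁ := mul_nonneg (inv_nonneg.mpr (kap_pos h₁ ha).le) p₁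
    have b2 : 0 ≤ be G₂ a y₂ := mul_nonneg (inv_nonneg.mpr (kap_pos h₂ ha).le) p₂
    exact (mul_self_inj b1 b2).mp s3
  rw [Fb_dec, e4, e5, ← decomp]

/-- MODULE A2d: normal component of `F`. -/
theorem Fb_pos {G₁ G₂ : E n → E n →L[ℝ] E n} (h₁ : IsMetric G₁) (h₂ : IsMetric G₂)
    {a : E n} (ha : a ∈ bM n) : 0 < ⟪Fb G₁ G₂ a a, a⟫ := by
  have k1 := kap_pos h₁ ha
  have k2 := kap_pos h₂ ha
  have haa : ⟪a, a⟫ = (1 : ℝ) := by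
    rw [real_inner_self_eq_norm_sq, norm_bM ha]; norm_num
  rw [real_inner_comm, Fb_apply, inner_add_right, inner_smul_right, inner_sub_right,
    inner_nu h₁ ha, inner_nu h₂ ha, haa]
  have : 1 + (kap G₁ a)⁻¹ * 1 * (kap G₂ a - kap G₁ a) = kap G₂ a / kap G₁ a := by
    field_simp; ring
  rw [this]
  positivity

/-- MODULE A2f: the inverse of `F`. -/
theorem Fb_inv {G₁ G₂ : E n → E n →L[ℝ] E n} (h₁ : IsMetric G₁) (h₂ : IsMetric G₂)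
    {a : E n} (ha : a ∈ bM n) (v : E n) : Fb G₂ G₁ a (Fb G₁ G₂ a v) = v := by
  have k1 := (kap_pos h₁ ha).ne'
  have k2 := (kap_pos h₂ ha).ne'
  rw [Fb_apply G₂ G₁]
  have h : ⟪a, Fb G₁ G₂ a v⟫ = (kap G₁ a)⁻¹ * ⟪a, v⟫ * kap G₂ a := by
    rw [Fb_apply, inner_add_right, inner_smul_right, inner_sub_right, inner_nu h₁ ha,
      inner_nu h₂ ha]
    field_simp
    ring
  rw [h, Fb_apply]
  have : (kap G₂ a)⁻¹ * ((kap G₁ a)⁻¹ * ⟪a, v⟫ * kap G₂ a) = (kap G₁ a)⁻¹ * ⟪a, v⟫ := by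
    field_simp
  rw [this, smul_sub, smul_sub]
  abel

/-- MODULE A2e: smoothness of `F`. -/
theorem Fb_smooth {G₁ G₂ : E n → E n →L[ℝ] E n} (h₁ : IsMetric G₁) (h₂ : IsMetric G₂)
    {a : E n} (ha : a ∈ bM n) : ContDiffAt ℝ ∞ (Fb G₁ G₂) a := by
  have hkap : ∀ {G : E n → E n →L[ℝ] E n}, IsMetric G → ContDiffAt ℝ ∞ (kap G) a := by
    intro G hG
    have h1 : ContDiffAt ℝ ∞ (fun y => (G y).inverse y) a :=
      (hG.contDiffAt_inv (bM_sub_M ha)).clm_apply contDiffAt_id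
    have h2 : ContDiffAt ℝ ∞ (fun y => ⟪(G y).inverse y, y⟫) a := h1.inner ℝ contDiffAt_id
    exact h2.sqrt (hG.inv_pos (bM_sub_M ha) a (ne_zero_bM ha)).ne'
  have hkinv : ∀ {G : E n → E n →L[ℝ] E n}, IsMetric G →
      ContDiffAt ℝ ∞ (fun y => (kap G y)⁻¹) a := fun hG => (hkap hG).inv (kap_pos hG ha).ne'
  have hnu : ∀ {G : E n → E n →L[ℝ] E n}, IsMetric G → ContDiffAt ℝ ∞ (nu G) a := by
    intro G hG
    exact (hkinv hG).smul ((hG.contDiffAt_inv (bM_sub_M ha)).clm_apply contDiffAt_id)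
  have hin : ContDiffAt ℝ ∞ (fun y : E n => innerSL ℝ y) a :=
    (innerSL ℝ : E n →L⋆[ℝ] E n →L[ℝ] ℝ).contDiff.contDiffAt
  exact contDiffAt_const.add (((hkinv h₁).smul hin).smulRight ((hnu h₂).sub (hnu h₁)))

end KBR
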