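import Pool.Agent.helper18.KBR3.FbLin
import Pool.Agent.helper15.KBR3.EndVel

/-!
# KBR3, module A3: the scattering relations correspond under `F`
-/

noncomputable section

namespace KBR

open Set MeasureTheory Filter Topology
open scoped ContDiff RealInnerProductSpace

variable {n m : ℕ}

namespace A3

variable {G : E n → E n →L[ℝ] E n} {c v : ℝ → E n}

/-- reversed geodesic -/
lemma reverse (h : IsGeod G 1 c v) : IsGeod G 1 (fun t => c (1 - t)) (fun t => -v (1 - t)) := by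
  have hmap : MapsTo (fun s : ℝ => 1 - s) (Icc 0 1) (Icc 0 1) := fun s hs =>
    ⟨by linarith [hs.2], by linarith [hs.1]⟩
  have hd : ∀ t, HasDerivWithinAt (fun s : ℝ => 1 - s) (-1) (Icc 0 1) t := by
    intro t
    simpa using (hasDerivWithinAt_id t (Icc 0 1)).const_sub (1 : ℝ)
  refine ⟨fun t ht => h.mem _ (hmap ht), fun t ht => ?_, fun t ht w => ?_⟩
  · have := HasDerivWithinAt.scomp t (h.vel _ (hmap ht)) (hd t) hmap
    rw [neg_smul, one_smul] at this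
    exact this
  · have h1 := (HasDerivWithinAt.scomp t (h.eq _ (hmap ht) w) (hd t) hmap).const_mul (-1 : ℝ)
    have h2 : (fun s => ⟪G (c (1 - s)) (-v (1 - s)), w⟫) =
        fun s => (-1 : ℝ) * ((fun s => ⟪G (c s) (v s), w⟫) ∘ fun s => 1 - s) s := by
      funext s
      simp [inner_neg_left]
    rw [h2]
    refine HasDerivWithinAt.congr_deriv h1 ?_
    simp only [map_neg, inner_neg_left, inner_neg_right, smul_eq_mul]
    ring

/-- the distance is the length of the geodesic -/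
lemma rdist_eq (hG : IsMetric G) {a : E n} (haM : a ∈ M n) (hE : ExpDiffeo G a)
    (h : IsGeod G 1 c v) (h0 : c 0 = a) : rdist G a (c 1) = nrm G a (v 0) := by
  apply le_antisymm
  · have hp : IsPath c a (c 1) := ⟨h.contDiffOn hG one_pos, h0, rfl, h.mem⟩
    refine (rdist_le_len hp).trans (le_of_eq ?_)
    unfold len
    have h1 : ∫ t in (0 : ℝ)..1, nrm G (c t) (derivWithin c (Icc 0 1) t) =
        ∫ t in (0 : ℝ)..1, nrm G a (v 0) := by
      apply intervalIntegral.integral_congr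
      intro t ht
      rw [uIcc_of_le zero_le_one] at ht
      show nrm G (c t) (derivWithin c (Icc 0 1) t) = nrm G a (v 0)
      rw [(h.vel t ht).derivWithin (uniqueDiffOn_Icc one_pos t ht),
        geod_speed G hG 1 c v h t ht, h0]
    rw [h1]
    simp
  · exact geod_minimal G hG a haM hE c v h h0

/-- the final velocity points outwards -/
lemma outward (h : IsGeod G 1 c v) (h1 : c 1 ∈ bM n) : 0 ≤ ⟪c 1, v 1⟫ := by
  have hmem : (1 : ℝ) ∈ Icc (0 : ℝ) 1 := ⟨zero_le_one, le_refl _⟩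
  have hv := h.vel 1 hmem
  have h2 : HasDerivWithinAt (fun t => ⟪c t, c t⟫) (⟪c 1, v 1⟫ + ⟪v 1, c 1⟫) (Icc 0 1) 1 :=
    HasDerivWithinAt.inner ℝ hv hv
  have h3 : ∀ t ∈ Icc (0 : ℝ) 1, ⟪c t, c t⟫ ≤ ⟪c 1, c 1⟫ := by
    intro t ht
    have e1 : ‖c 1‖ = 1 := A2.norm_bM h1
    have e2 : ‖c t‖ ≤ 1 := by simpa [M] using h.mem t ht
    rw [real_inner_self_eq_norm_sq, real_inner_self_eq_norm_sq, e1]
    nlinarith [norm_nonneg (c t)]
  -- difference quotients from the left are nonnegative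
  have h4 := hasDerivWithinAt_iff_tendsto_slope.mp h2
  have h5 : 0 ≤ ⟪c 1, v 1⟫ + ⟪v 1, c 1⟫ := by
    haveI : NeBot (𝓝[Icc (0 : ℝ) 1 \ {1}] 1) := by
      have : Icc (0 : ℝ) 1 \ {1} = Ico 0 1 := by
        ext t
        simp only [mem_diff, mem_Icc, mem_singleton_iff, mem_Ico]
        constructor
        · rintro ⟨⟨h1, h2⟩, h3⟩
          exact ⟨h1, lt_of_le_of_ne h2 h3⟩
        · rintro ⟨h1, h2⟩
          exact ⟨⟨h1, h2.le⟩, h2.ne⟩
      rw [this, ← mem_closure_iff_nhdsWithin_neBot, closure_Ico (by norm_num)]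
      exact hmem
    refine ge_of_tendsto h4 ?_
    filter_upwards [self_mem_nhdsWithin] with t ht
    rw [slope_def_field]
    apply div_nonneg_of_nonpos
    · linarith [h3 t ht.1]
    · have : t ≤ 1 := ht.1.2
      linarith
  rw [real_inner_comm (c 1) (v 1)] at h5
  linarith

/-- derivatives within `M` of functions which agree on the boundary agree on tangent vectors -/
lemma fderiv_tan {S₁ S₂ : E n → ℝ} (hS₁ : ContDiffOn ℝ ∞ S₁ (M n)) (hS₂ : ContDiffOn ℝ ∞ S₂ (M n))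
    (heq : ∀ y ∈ bM n, S₁ y = S₂ y) {b : E n} (hb : b ∈ bM n) {w : E n} (hw : ⟪b, w⟫ = 0) :
    fderivWithin ℝ S₁ (M n) b w = fderivWithin ℝ S₂ (M n) b w := by
  have hunit : ∀ w : E n, ‖w‖ = 1 → ⟪b, w⟫ = 0 →
      fderivWithin ℝ S₁ (M n) b w = fderivWithin ℝ S₂ (M n) b w := by
    intro w hw1 hw
    have hbn := A2.norm_bM hb
    have hgc : ∀ s, BQ.gc b w s ∈ bM n := fun s => by simp [bM, BQ.gc_norm hbn hw1 hw s]
    have key : ∀ {S : E n → ℝ}, ContDiffOn ℝ ∞ S (M n) →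
        HasDerivAt (S ∘ BQ.gc b w) (fderivWithin ℝ S (M n) b w) 0 := by
      intro S hS
      have h1 : HasFDerivWithinAt S (fderivWithin ℝ S (M n) b) (M n) (BQ.gc b w 0) := by
        rw [BQ.gc_zero]
        exact ((hS.differentiableOn (by simp)) b (bM_sub_M hb)).hasFDerivWithinAt
      have h2 : HasDerivWithinAt (S ∘ BQ.gc b w) (fderivWithin ℝ S (M n) b w) univ 0 :=
        h1.comp_hasDerivWithinAt 0 (BQ.gc_deriv b w).hasDerivWithinAt
          (fun s _ => bM_sub_M (hgc s))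
      exact hasDerivWithinAt_univ.mp h2
    have h1 := key hS₁
    have h2 := key hS₂
    have h3 : S₁ ∘ BQ.gc b w = S₂ ∘ BQ.gc b w := by
      funext s
      exact heq _ (hgc s)
    rw [h3] at h1
    exact h1.unique h2
  by_cases hw0 : w = 0
  · simp [hw0]
  have hvn : ‖w‖ ≠ 0 := norm_ne_zero_iff.mpr hw0
  have h1 : ‖(‖w‖)⁻¹ • w‖ = 1 := by
    rw [norm_smul, norm_inv, norm_norm, inv_mul_cancel₀ hvn]
  have h2 : ⟪b, (‖w‖)⁻¹ • w⟫ = 0 := by rw [inner_smul_right, hw, mul_zero]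
  have h3 := hunit _ h1 h2
  rw [map_smul, map_smul] at h3
  exact smul_right_injective _ (inv_ne_zero hvn) h3

/-- end velocities correspond -/
theorem scat_end {G₁ G₂ : E n → E n →L[ℝ] E n} (h₁ : IsMetric G₁) (h₂ : IsMetric G₂)
    (e₁ : ∀ x ∈ M n, ExpDiffeo G₁ x) (e₂ : ∀ x ∈ M n, ExpDiffeo G₂ x) (hd : BdEq G₁ G₂)
    {a b : E n} (ha : a ∈ bM n) (hb : b ∈ bM n) {c₁ v₁ c₂ v₂ : ℝ → E n}
    (g₁ : IsGeod G₁ 1 c₁ v₁) (g₂ : IsGeod G₂ 1 c₂ v₂) (ha₁ : c₁ 0 = a) (ha₂ : c₂ 0 = a)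
    (hb₁ : c₁ 1 = b) (hb₂ : c₂ 1 = b) : Fb G₁ G₂ b (v₁ 1) = v₂ 1 := by
  have haM := bM_sub_M ha
  have hbM := bM_sub_M hb
  have hmem : (1 : ℝ) ∈ Icc (0 : ℝ) 1 := ⟨zero_le_one, le_refl _⟩
  obtain ⟨E₁, L₁, x1, x2, x3, x4, x5⟩ := e₁ a haM
  obtain ⟨E₂, L₂, y1, y2, y3, y4, y5⟩ := e₂ a haM
  obtain ⟨Y₁, -, p1, q1⟩ := end_vel h₁ x1 x2 x3 x4 x5
  obtain ⟨Y₂, -, p2, q2⟩ := end_vel h₂ y1 y2 y3 y4 y5
  -- the two functions agree on the boundary
  have hS : ∀ {G : E n → E n →L[ℝ] E n}, IsMetric G → ExpDiffeo G a → ∀ {e L : E n → E n},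
      (∀ y ∈ M n, L y ∈ expDom G a ∧ e (L y) = y) →
      (∀ c v, IsGeod G 1 c v → c 0 = a → c 1 = e (v 0)) →
      ∀ y ∈ M n, Sf G a L y = 1 / 2 * rdist G a y ^ 2 := by
    intro G hG hE e L h2 h1 y hy
    obtain ⟨⟨c, v, hg, hc0, hv0⟩, hey⟩ := h2 y hy
    have hc1 : c 1 = y := by rw [h1 c v hg hc0, hv0, hey]
    have h3 := rdist_eq hG haM hE hg hc0
    rw [hc1, hv0] at h3
    rw [h3, Sf, hG.nrm_sq haM]
  have heq : ∀ y ∈ bM n, Sf G₁ a L₁ y = Sf G₂ a L₂ y := by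
    intro y hy
    rw [hS h₁ (e₁ a haM) x4 x1 y (bM_sub_M hy), hS h₂ (e₂ a haM) y4 y1 y (bM_sub_M hy),
      hd a ha y hy]
  have v1 : v₁ 1 = Y₁ b := by rw [p1 c₁ v₁ g₁ ha₁, hb₁]
  have v2 : v₂ 1 = Y₂ b := by rw [p2 c₂ v₂ g₂ ha₂, hb₂]
  refine Fb_det h₁ h₂ hb (fun u v hu hv => tan_eq h₁ h₂ hd hb hu hv) ?_ ?_ ?_ ?_
  · intro w hw
    rw [v1, v2, ← q1 b hbM, ← q2 b hbM]
    exact fderiv_tan (Sf_contDiffOn x3) (Sf_contDiffOn y3) heq hb hw
  · have s1 := geod_speed G₁ h₁ 1 c₁ v₁ g₁ 1 hmem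
    have s2 := geod_speed G₂ h₂ 1 c₂ v₂ g₂ 1 hmem
    have r1 := rdist_eq h₁ haM (e₁ a haM) g₁ ha₁
    have r2 := rdist_eq h₂ haM (e₂ a haM) g₂ ha₂
    rw [hb₁] at r1 s1
    rw [hb₂] at r2 s2
    rw [ha₁] at s1
    rw [ha₂] at s2
    rw [← h₁.nrm_sq hbM, ← h₂.nrm_sq hbM, s1, s2, ← r1, ← r2, hd a ha b hb]
  · have := outward g₁ (by rw [hb₁]; exact hb)
    rwa [hb₁] at this
  · have := outward g₂ (by rw [hb₂]; exact hb)
    rwa [hb₂] at this

end A3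

/-- MODULE A3 (`scat`): the initial velocities of the two geodesics with the same boundary end
points correspond under `F`. -/
theorem scat {G₁ G₂ : E n → E n →L[ℝ] E n} (h₁ : IsMetric G₁) (h₂ : IsMetric G₂)
    (e₁ : ∀ x ∈ M n, ExpDiffeo G₁ x) (e₂ : ∀ x ∈ M n, ExpDiffeo G₂ x) (hd : BdEq G₁ G₂)
    {a b : E n} (ha : a ∈ bM n) (hb : b ∈ bM n) {c₁ v₁ c₂ v₂ : ℝ → E n}
    (g₁ : IsGeod G₁ 1 c₁ v₁) (g₂ : IsGeod G₂ 1 c₂ v₂) (ha₁ : c₁ 0 = a) (ha₂ : c₂ 0 = a)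
    (hb₁ : c₁ 1 = b) (hb₂ : c₂ 1 = b) : Fb G₁ G₂ a (v₁ 0) = v₂ 0 := by
  have h := A3.scat_end h₁ h₂ e₁ e₂ hd hb ha (A3.reverse g₁) (A3.reverse g₂)
    (by simpa using hb₁) (by simpa using hb₂) (by simpa using ha₁) (by simpa using ha₂)
  simp only [sub_self, map_neg, neg_inj] at h
  exact h

end KBR
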